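import Pool.Agent.P.MP_3b9ee7_co.PP.Skew

/-! Many pairwise disjoint spreads of `E × E`: shears of one Desarguesian spread. -/

set_option autoImplicit false

namespace Pool.Agent.P.MP_3b9ee7_co.PP

open Module Finset

variable {K E : Type} [Field K] [Fintype K] [Field E] [Algebra K E]

variable (K) in
/-- `x ↦ x ^ q - c x` -/
def psi (c : E) : Module.End K E := fr K E - mu K c

lemma top_psi (c : E) : Top 1 (1 : E) (psi K c) := top_fr.sub_mem (mu_mem c)

variable (K) in
/-- twisted norm -/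
def nm : ℕ → E → E
  | 0, _ => 1
  | i + 1, c => nm i c ^ Fintype.card K * c

omit [Field K] [Algebra K E] in
lemma nm_one (i : ℕ) : nm K i (1 : E) = 1 := by
  induction i with
  | zero => rfl
  | succ i ih => simp [nm, ih]

lemma div_psi (c : E) (i : ℕ) :
    ∃ w, Top i (1 : E) w ∧ fr K E ^ (i + 1) = w * psi K c + mu K (nm K (i + 1) c) := by
  induction i with
  | zero => exact ⟨1, by simpa using top_mu (K := K) (1 : E), by simp [psi, nm]⟩
  | succ i ih =>
    obtain ⟨w, hw, e⟩ := ih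
    refine ⟨fr K E * w + mu K (nm K (i + 1) c ^ Fintype.card K), ?_, ?_⟩
    · have := (top_fr.mul hw).add_mem (g := mu K (nm K (i + 1) c ^ Fintype.card K))
        (by rw [add_comm]; exact mu_mem _)
      simpa [add_comm] using this
    · rw [pow_succ', e, mul_add, fr_mu, add_mul, mul_assoc, add_assoc]
      congr 1
      rw [psi, mul_sub, mu_mul]
      simp [nm]

variable [Finite E]

/-- a polynomial of degree `r + 2` without right factor of degree one -/
lemma exists_mu (r : ℕ) : ∃ M : Module.End K E, ∀ c : E, ∃ w ρ, Top (r + 1) (1 : E) w ∧ ρ ≠ 0 ∧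
    M = w * psi K c + mu K ρ := by
  have hns : ¬ Function.Surjective fun c : E => nm K (r + 2) c - c := by
    rw [← Finite.injective_iff_surjective]
    intro h
    have : (0 : E) = 1 := h (by simp only [nm_one]; simp [nm])
    exact zero_ne_one this
  simp only [Function.Surjective, not_forall, not_exists] at hns
  obtain ⟨z, hz⟩ := hns
  refine ⟨fr K E ^ (r + 2) - fr K E - mu K z, fun c => ?_⟩
  obtain ⟨w, hw, e⟩ := div_psi (K := K) c (r + 1)
  refine ⟨w - 1, nm K (r + 2) c - c - z, ?_, sub_ne_zero.2 (hz c), ?_⟩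
  · exact hw.sub_mem (by simpa using mu_mem (K := K) (n := r) (1 : E))
  · rw [e, mu_sub, mu_sub, sub_mul, one_mul, psi]; abel

section
variable {r : ℕ} {M : Module.End K E} (hr : finrank K E = r + 3)
  (hM : ∀ c : E, ∃ w ρ, Top (r + 1) (1 : E) w ∧ ρ ≠ 0 ∧ M = w * psi K c + mu K ρ)
include hr hM

lemma no_factor {w P : Module.End K E} {a : E} (hw : w ∈ R K E (r + 2)) (hP : Top 1 a P)
    (ha : a ≠ 0) : M ≠ w * P := by
  intro h
  obtain ⟨b, hb⟩ := hP
  have hP' : P = mu K a * psi K (-(b 0 / a)) := by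
    rw [psi, mul_sub, mu_mul]
    have : a * -(b 0 / a) = -b 0 := by field_simp
    rw [this, mu_neg]
    simp only [range_one, sum_singleton, pow_zero, mul_one, pow_one] at hb
    rw [← hb]; abel
  obtain ⟨w', ρ, hw', hρ, e⟩ := hM (-(b 0 / a))
  have h1 : (w * mu K a - w') * psi K (-(b 0 / a)) = mu K ρ := by
    rw [sub_mul, mul_assoc, ← hP', ← h, e]; abel
  have h2 : w * mu K a - w' = 0 :=
    eq_zero_of_mul_mem (n := r + 2) (sub_mem (R_mul hw (mu_mem (n := 0) a) (by omega)) hw'.mem)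
      (top_psi _) one_ne_zero (by omega) (by rw [h1]; exact mu_mem _)
  rw [h2, zero_mul] at h1
  have := LinearMap.congr_fun h1 1
  simp only [LinearMap.zero_apply, mu_apply, mul_one] at this
  exact hρ this.symm

omit hr [Finite E] in
lemma M_inj {x : E} (h : M x = 0) : x = 0 := by
  by_contra hx
  obtain ⟨w, ρ, -, hρ, e⟩ := hM (x ^ Fintype.card K / x)
  have h1 : psi K (x ^ Fintype.card K / x) x = 0 := by
    simp only [psi, LinearMap.sub_apply, fr_apply, mu_apply]; field_simp; ring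
  rw [e] at h
  simp only [LinearMap.add_apply, Module.End.mul_apply, h1, map_zero, mu_apply, zero_add] at h
  exact hx ((mul_eq_zero.1 h).resolve_left hρ)

end

/-- the image of `x ↦ (f x, g x)` -/
def G (f g : Module.End K E) : Submodule K (E × E) := LinearMap.range (f.prod g)

omit [Fintype K] [Finite E] in
lemma mem_G {f g : Module.End K E} {v : E × E} : v ∈ G f g ↔ ∃ x, f x = v.1 ∧ g x = v.2 := by
  simp [G, Prod.ext_iff]

omit [Fintype K] in
lemma finrank_G {f g : Module.End K E} (h : ∀ x, f x = 0 → g x = 0 → x = 0) :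
    finrank K (G f g) = finrank K E := by
  refine LinearMap.finrank_range_of_inj ?_
  rw [injective_iff_map_eq_zero]
  intro x hx
  exact h x (congrArg Prod.fst hx) (congrArg Prod.snd hx)

/-- the class with parameters `l`, `t` -/
def cls (M : Module.End K E) (l : E) (t : Module.End K E) : Set (Submodule K (E × E)) :=
  {B | B = G (mu K l) (-t) ∨ ∃ c : E, B = G (mu K l * psi K c) (M - t * psi K c)}

section
variable {r : ℕ} {M : Module.End K E} (hr : finrank K E = r + 3)
  (hM : ∀ c : E, ∃ w ρ, Top (r + 1) (1 : E) w ∧ ρ ≠ 0 ∧ M = w * psi K c + mu K ρ)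
include hM

lemma cls_dim {l : E} (hl : l ≠ 0) (t : Module.End K E) {B : Submodule K (E × E)}
    (hB : B ∈ cls M l t) : finrank K B = finrank K E := by
  rcases hB with rfl | ⟨c, rfl⟩
  · exact finrank_G fun x h _ => by simpa [hl] using h
  · refine finrank_G fun x h h' => M_inj hM ?_
    have h1 : psi K c x = 0 := by simpa [hl] using h
    simpa [h1] using h'

lemma cls_cover {l : E} (hl : l ≠ 0) (t : Module.End K E) {v : E × E} (hv : v ≠ 0) :
    ∃! B, B ∈ cls M l t ∧ v ∈ B := by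
  have hinj : Function.Injective M := (injective_iff_map_eq_zero M).2 fun x => M_inj hM
  obtain ⟨x, hx⟩ := Finite.injective_iff_surjective.1 hinj (v.2 + t (v.1 / l))
  have key : ∀ c y, (mu K l * psi K c) y = v.1 → (M - t * psi K c) y = v.2 →
      y = x ∧ psi K c x = v.1 / l := by
    intro c y h1 h2
    have h3 : psi K c y = v.1 / l := by
      rw [← h1]; simp only [Module.End.mul_apply, mu_apply]; field_simp
    have h4 : y = x := hinj (by
      rw [hx, ← h2, ← h3]; simp)
    exact ⟨h4, h4 ▸ h3⟩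
  have key' : ∀ y, mu K l y = v.1 → (-t) y = v.2 → x = 0 := by
    intro y h1 h2
    have h3 : v.1 / l = y := by rw [← h1]; simp only [mu_apply]; field_simp
    exact M_inj hM (by rw [hx, h3, ← h2]; simp)
  by_cases h0 : x = 0
  · subst h0
    refine ⟨G (mu K l) (-t), ⟨Or.inl rfl, mem_G.2 ⟨v.1 / l, ?_, ?_⟩⟩, ?_⟩
    · simp only [mu_apply]; field_simp
    · rw [map_zero] at hx
      rw [LinearMap.neg_apply, neg_eq_iff_add_eq_zero, add_comm, ← hx]
    · rintro B ⟨rfl | ⟨c, rfl⟩, hB⟩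
      · rfl
      · obtain ⟨y, h1, h2⟩ := mem_G.1 hB
        obtain ⟨rfl, -⟩ := key c y h1 h2
        exact absurd (Prod.ext (by simpa using h1.symm) (by simpa using h2.symm)) hv
  · have hc : ∀ c, psi K c x = v.1 / l ↔ c = (x ^ Fintype.card K - v.1 / l) / x := by
      intro c
      simp only [psi, LinearMap.sub_apply, fr_apply, mu_apply]
      rw [eq_div_iff h0]
      constructor <;> intro h <;> linear_combination -h
    set c := (x ^ Fintype.card K - v.1 / l) / x
    have h3 := (hc c).2 rfl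
    refine ⟨G (mu K l * psi K c) (M - t * psi K c), ⟨Or.inr ⟨c, rfl⟩, mem_G.2 ⟨x, ?_, ?_⟩⟩, ?_⟩
    · simp only [Module.End.mul_apply, mu_apply, h3]; field_simp
    · simp [h3, hx]
    · rintro B ⟨rfl | ⟨c', rfl⟩, hB⟩
      · obtain ⟨y, h1, h2⟩ := mem_G.1 hB
        exact absurd (key' y h1 h2) h0
      · obtain ⟨y, h1, h2⟩ := mem_G.1 hB
        rw [(hc c').1 (key c' y h1 h2).2]

include hr

omit hM in
lemma param_eq {l l' : E} {t t' : Module.End K E}
    (ht : Top (r + 1) (1 : E) t) (ht' : Top (r + 1) (1 : E) t')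
    (h : t * mu K l⁻¹ = t' * mu K l'⁻¹) : l = l' := by
  have h1 := ht.mul (top_mu l⁻¹)
  have h2 := ht'.mul (top_mu l'⁻¹)
  rw [h] at h1
  have h3 := h1.unique h2 (by omega)
  rw [one_mul, one_mul, ← fr_pow_apply, ← fr_pow_apply, ← sub_eq_zero, ← map_sub,
    fr_pow_apply] at h3
  exact inv_injective (sub_eq_zero.1 (pow_eq_zero_iff (by positivity) |>.1 h3))

omit hM hr [Finite E] [Fintype K] in
lemma cancel_mu {l : E} (hl : l ≠ 0) {t t' : Module.End K E}
    (h : t * mu K l⁻¹ = t' * mu K l⁻¹) : t = t' := by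
  have := congrArg (· * mu K l) h
  simpa [mul_assoc, mu_mul, hl] using this

lemma head_ne {l l' : E} (hl' : l' ≠ 0) {t t' : Module.End K E} (c : E)
    (ht : Top (r + 1) (1 : E) t) (ht' : Top (r + 1) (1 : E) t') :
    G (mu K l * psi K c) (M - t * psi K c) ≠ G (mu K l') (-t') := by
  intro h
  refine no_factor hr hM (w := t - t' * mu K (l / l'))
    (sub_mem ht.mem (R_mul ht'.mem (mu_mem (n := 0) _) (by omega))) (top_psi c) one_ne_zero ?_
  ext x
  obtain ⟨y, h1, h2⟩ := mem_G.1 (h ▸ mem_G.2 ⟨x, rfl, rfl⟩ :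
    ((mu K l * psi K c) x, (M - t * psi K c) x) ∈ G (mu K l') (-t'))
  simp only [mu_apply, Module.End.mul_apply, LinearMap.neg_apply, LinearMap.sub_apply] at h1 h2 ⊢
  have : l / l' * psi K c x = y := by field_simp; linear_combination -h1
  rw [this]; linear_combination -h2

omit [Finite E] hr in
lemma normal_form {l : E} (hl : l ≠ 0) {t : Module.End K E} (ht : Top (r + 1) (1 : E) t) (c : E) :
    ∃ (P d w : Module.End K E) (a η : E), a ≠ 0 ∧ Top 1 a P ∧ d ∈ R K E (r + 1) ∧
      Top (r + 1) (1 : E) w ∧ d = w * mu K l⁻¹ - t * mu K l⁻¹ ∧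
      M * mu K η = w * mu K l⁻¹ * P + 1 ∧
      G (mu K l * psi K c) (M - t * psi K c) = G P (1 + d * P) := by
  obtain ⟨w, ρ, hw, hρ, e⟩ := hM c
  have hP := ((top_mu l).mul (top_psi c)).mul (top_mu (K := K) ρ⁻¹)
  have e1 : mu K l⁻¹ * (mu K l * psi K c * mu K ρ⁻¹) = psi K c * mu K ρ⁻¹ := by
    rw [← mul_assoc, ← mul_assoc, mu_mul, inv_mul_cancel₀ hl, mu_one, one_mul]
  have e2 : M * mu K ρ⁻¹ = w * mu K l⁻¹ * (mu K l * psi K c * mu K ρ⁻¹) + 1 := by
    rw [mul_assoc w, e1, e, add_mul, mu_mul, mul_inv_cancel₀ hρ, mu_one, mul_assoc]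
  refine ⟨mu K l * psi K c * mu K ρ⁻¹, w * mu K l⁻¹ - t * mu K l⁻¹, w, _, ρ⁻¹, ?_, hP, ?_, hw,
    rfl, e2, ?_⟩
  · simp [hl, hρ]
  · rw [← sub_mul]
    have := hw.sub ht
    rw [sub_self] at this
    exact R_mul this.zero_mem (mu_mem (n := 0) _) (by omega)
  · have e3 : 1 + (w * mu K l⁻¹ - t * mu K l⁻¹) * (mu K l * psi K c * mu K ρ⁻¹)
        = (M - t * psi K c) * mu K ρ⁻¹ := by
      rw [sub_mul, sub_mul, e2, mul_assoc t, e1, mul_assoc t]; abel
    rw [e3]
    ext v
    simp only [mem_G, Module.End.mul_apply (g := mu K ρ⁻¹), mu_apply]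
    constructor
    · rintro ⟨x, h⟩
      exact ⟨ρ * x, by simpa [hρ] using h⟩
    · rintro ⟨x, h⟩
      exact ⟨_, h⟩

omit hM in
lemma normal_unique {P P' d d' : Module.End K E} {a a' : E} (ha : a ≠ 0) (ha' : a' ≠ 0)
    (hP : Top 1 a P) (hP' : Top 1 a' P') (hd : d ∈ R K E (r + 1)) (hd' : d' ∈ R K E (r + 1))
    (h : G P (1 + d * P) = G P' (1 + d' * P')) : P = P' ∧ d = d' := by
  have e : P * (d' - d) * P' = P' - P := by
    ext x
    obtain ⟨y, h1, h2⟩ := mem_G.1 (h ▸ mem_G.2 ⟨x, rfl, rfl⟩ :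
      (P' x, (1 + d' * P') x) ∈ G P (1 + d * P))
    simp only [LinearMap.add_apply, Module.End.one_apply, Module.End.mul_apply,
      LinearMap.sub_apply] at h1 h2 ⊢
    rw [h1] at h2
    have : d' (P' x) - d (P' x) = y - x := by linear_combination -h2
    rw [this, map_sub, h1]
  have h0 : d' - d = 0 := by
    by_contra h0
    obtain ⟨j, hj, b, hb, ht⟩ := exists_top (sub_mem hd' hd) h0
    have := ((hP.mul ht).mul hP').eq_zero
      (by rw [e]; exact R_mono (by omega) (sub_mem hP'.mem hP.mem)) (by omega)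
    simp [ha, ha', hb] at this
  rw [h0, mul_zero, zero_mul] at e
  exact ⟨(sub_eq_zero.1 e.symm).symm, (sub_eq_zero.1 h0).symm⟩

lemma cls_disjoint {l l' : E} (hl : l ≠ 0) (hl' : l' ≠ 0) {t t' : Module.End K E}
    (ht : Top (r + 1) (1 : E) t) (ht' : Top (r + 1) (1 : E) t') {B : Submodule K (E × E)}
    (hB : B ∈ cls M l t) (hB' : B ∈ cls M l' t') : l = l' ∧ t = t' := by
  rcases hB with rfl | ⟨c, rfl⟩ <;> rcases hB' with h | ⟨c', h⟩
  · have e : t * mu K l⁻¹ = t' * mu K l'⁻¹ := by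
      ext x
      obtain ⟨y, h1, h2⟩ := mem_G.1 (h ▸ mem_G.2 ⟨l⁻¹ * x, rfl, rfl⟩ :
        (mu K l (l⁻¹ * x), (-t) (l⁻¹ * x)) ∈ G (mu K l') (-t'))
      simp only [mu_apply, Module.End.mul_apply, LinearMap.neg_apply, neg_inj] at h1 h2 ⊢
      have : l'⁻¹ * x = y := by field_simp at h1 ⊢; linear_combination -h1
      rw [this, h2]
    obtain rfl := param_eq hr ht ht' e
    exact ⟨rfl, cancel_mu hl e⟩
  · exact absurd h.symm (head_ne hr hM hl c' ht' ht)
  · exact absurd h (head_ne hr hM hl' c ht ht')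
  · obtain ⟨P, d, w, a, η, ha, hP, hd, hw, ed, em, eg⟩ := normal_form hM hl ht c
    obtain ⟨P', d', w', a', η', ha', hP', hd', hw', ed', em', eg'⟩ := normal_form hM hl' ht' c'
    obtain ⟨rfl, rfl⟩ := normal_unique hr ha ha' hP hP' hd hd' (by rw [← eg, ← eg', h])
    have hW : w * mu K l⁻¹ - w' * mu K l'⁻¹ ∈ R K E (r + 2) :=
      sub_mem (R_mul hw.mem (mu_mem (n := 0) _) (by omega))
        (R_mul hw'.mem (mu_mem (n := 0) _) (by omega))
    have e : M * mu K (η - η') = (w * mu K l⁻¹ - w' * mu K l'⁻¹) * P := by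
      rw [mu_sub, mul_sub, em, em', sub_mul]; abel
    have hη : η - η' = 0 := by
      by_contra h0
      refine no_factor hr hM hW (hP.mul (top_mu (η - η')⁻¹)) (by simp [ha, h0]) ?_
      rw [← mul_assoc, ← e, mul_assoc, mu_mul, mul_inv_cancel₀ h0, mu_one, mul_one]
    rw [hη, mu_zero, mul_zero] at e
    have h1 := sub_eq_zero.1
      (eq_zero_of_mul_mem hW hP ha (by omega) (by rw [← e]; exact zero_mem _))
    obtain rfl := param_eq hr hw hw' h1
    refine ⟨rfl, cancel_mu hl ?_⟩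
    rw [h1] at ed
    exact sub_right_injective (ed.symm.trans ed')

end

end Pool.Agent.P.MP_3b9ee7_co.PP
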