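import Pool.Agent.P.MP_3b9ee7_co.PP.Core

/-! `(q^k - 1) q^(k (k-2))` pairwise disjoint `k`-spreads in dimension `2 k`, for all `k ≥ 3`. -/

set_option autoImplicit false

namespace Pool.Agent.P.MP_3b9ee7_co.PP

open Module Finset

section
variable {K E : Type} [Field K] [Fintype K] [Field E] [Algebra K E]

/-- monic polynomial of degree `n` with given lower coefficients -/
noncomputable def mon (K : Type) [Field K] [Fintype K] [Algebra K E] {n : ℕ} (a : Fin n → E) :
    Module.End K E :=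
  mu K 1 * fr K E ^ n + ∑ i ∈ range n, mu K (if h : i < n then a ⟨i, h⟩ else 0) * fr K E ^ i

lemma top_mon {n : ℕ} (a : Fin n → E) : Top n (1 : E) (mon K a) :=
  (top_gen n 1).add_mem ⟨_, rfl⟩

lemma mon_inj [Finite E] {n : ℕ} (hn : n ≤ finrank K E) {a b : Fin n → E}
    (h : mon K a = mon K b) : a = b := by
  have h1 := add_left_cancel h
  rw [← sub_eq_zero, ← sum_sub_distrib] at h1
  simp only [← sub_mul, ← mu_sub] at h1
  funext i
  have := coeff_eq_zero hn _ h1 i i.2
  simpa [sub_eq_zero] using this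

end

theorem two_k (K : Type) [Field K] [Fintype K] (t : ℕ) (ht : 2 ≤ t) (V : Type) [AddCommGroup V]
    [Module K V] (hV : finrank K V = 2 * (t + 1)) :
    ∃ F : Finset (Set (Submodule K V)),
      (∀ S ∈ F, (∀ U ∈ S, finrank K U = t + 1) ∧
        ∀ P : Submodule K V, finrank K P = 1 → ∃! U, U ∈ S ∧ P ≤ U) ∧
      (∀ S ∈ F, ∀ S' ∈ F, S ≠ S' → Disjoint S S') ∧
      (Fintype.card K ^ (t + 1) - 1) * Fintype.card K ^ ((t + 1) * (t - 1)) ≤ F.card := by
  classical
  obtain ⟨r, rfl⟩ : ∃ r, t = r + 2 := ⟨t - 2, by omega⟩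
  obtain ⟨p, hp⟩ := CharP.exists K
  have : Fact p.Prime := ⟨CharP.char_is_prime K p⟩
  let E := FiniteField.Extension K p (r + 3)
  have hr : finrank K E = r + 3 := FiniteField.finrank_extension K p (r + 3)
  have := Fintype.ofFinite E
  have hcard : Fintype.card E = Fintype.card K ^ (r + 3) := by
    rw [Module.card_eq_pow_finrank (K := K), hr]
  have : FiniteDimensional K V := Module.finite_of_finrank_pos (by omega)
  obtain ⟨e⟩ : Nonempty ((E × E) ≃ₗ[K] V) :=
    FiniteDimensional.nonempty_linearEquiv_of_finrank_eq (by rw [finrank_prod, hr, hV]; ring)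
  obtain ⟨M, hM⟩ := exists_mu (K := K) (E := E) r
  let S : Eˣ × (Fin (r + 1) → E) → Set (Submodule K V) := fun y =>
    {U | U.comap (e : E × E →ₗ[K] V) ∈ cls M y.1 (mon K y.2)}
  have hd : ∀ y y' U, U ∈ S y → U ∈ S y' → y = y' := by
    intro y y' U h h'
    obtain ⟨h1, h2⟩ := cls_disjoint hr hM y.1.ne_zero y'.1.ne_zero (top_mon _) (top_mon _) h h'
    exact Prod.ext (Units.ext h1) (mon_inj (by omega) h2)
  have hcm : ∀ B : Submodule K (E × E),
      (B.map (e : E × E →ₗ[K] V)).comap (e : E × E →ₗ[K] V) = B := fun B =>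
    Submodule.comap_map_eq_of_injective e.injective B
  have hmc : ∀ U : Submodule K V,
      (U.comap (e : E × E →ₗ[K] V)).map (e : E × E →ₗ[K] V) = U := fun U =>
    Submodule.map_comap_eq_of_surjective e.surjective U
  have hinj : Function.Injective S := by
    intro y y' h
    have h1 : (G (mu K (y.1 : E)) (-mon K y.2)).map (e : E × E →ₗ[K] V) ∈ S y := by
      show _ ∈ cls _ _ _
      rw [hcm]; exact Or.inl rfl
    exact hd y y' _ h1 (h ▸ h1)
  refine ⟨univ.image S, ?_, ?_, ?_⟩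
  · intro T hT
    obtain ⟨y, -, rfl⟩ := mem_image.1 hT
    refine ⟨fun U hU => ?_, fun P hP => ?_⟩
    · rw [← hmc U, LinearEquiv.finrank_map_eq, cls_dim hM y.1.ne_zero _ hU, hr]
    · obtain ⟨v, hv0, hv⟩ := finrank_eq_one_iff'.1 hP
      have hle : ∀ U : Submodule K V, P ≤ U ↔ e.symm v ∈ U.comap (e : E × E →ₗ[K] V) := by
        intro U
        simp only [Submodule.mem_comap, LinearEquiv.coe_coe, LinearEquiv.apply_symm_apply]
        refine ⟨fun h => h v.2, fun h x hx => ?_⟩
        obtain ⟨c, hc⟩ := hv ⟨x, hx⟩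
        have : x = c • (v : V) := (congrArg Subtype.val hc).symm
        exact this ▸ U.smul_mem c h
      have hne : e.symm v ≠ 0 := by
        simpa using hv0
      obtain ⟨B, ⟨hB, hvB⟩, hu⟩ := cls_cover hM y.1.ne_zero (mon K y.2) hne
      refine ⟨B.map (e : E × E →ₗ[K] V), ⟨?_, ?_⟩, fun U hU => ?_⟩
      · show _ ∈ cls _ _ _
        rwa [hcm]
      · rwa [hle, hcm]
      · rw [← hu _ ⟨hU.1, (hle U).1 hU.2⟩, hmc]
  · intro T hT T' hT' hne
    obtain ⟨y, -, rfl⟩ := mem_image.1 hT
    obtain ⟨y', -, rfl⟩ := mem_image.1 hT'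
    exact Set.disjoint_left.2 fun U h h' => hne (by rw [hd y y' U h h'])
  · rw [card_image_of_injective _ hinj, card_univ, Fintype.card_prod, Fintype.card_units,
      Fintype.card_fun, Fintype.card_fin, hcard, ← pow_mul]
    exact le_of_eq rfl

end Pool.Agent.P.MP_3b9ee7_co.PP
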