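import Mathlib

/-! Linearised polynomials as endomorphisms of a finite extension `E / K` of a finite field. -/

set_option autoImplicit false

namespace Pool.Agent.P.MP_3b9ee7_co.PP

open Module Finset

variable (K : Type) {E : Type} [Field K] [Fintype K] [Field E] [Algebra K E]

/-- multiplication by `a` -/
def mu (a : E) : Module.End K E := LinearMap.mulLeft K a

variable (E) in
/-- the Frobenius map -/
def fr : Module.End K E := (FiniteField.frobeniusAlgHom K E).toLinearMap

variable {K}

omit [Fintype K] in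
@[simp] lemma mu_apply (a x : E) : mu K a x = a * x := rfl

@[simp] lemma fr_apply (x : E) : fr K E x = x ^ Fintype.card K := rfl

lemma fr_pow_apply (i : ℕ) (x : E) : (fr K E ^ i) x = x ^ (Fintype.card K ^ i) := by
  induction i generalizing x with
  | zero => simp
  | succ i ih => rw [pow_succ', Module.End.mul_apply, ih, fr_apply, ← pow_mul, ← pow_succ]

omit [Fintype K] in
lemma mu_mul (a b : E) : mu K a * mu K b = mu K (a * b) := by ext x; simp [mul_assoc]

omit [Fintype K] in
@[simp] lemma mu_one : mu K (1 : E) = 1 := by ext x; simp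

omit [Fintype K] in
@[simp] lemma mu_zero : mu K (0 : E) = 0 := by ext x; simp

omit [Fintype K] in
lemma mu_add (a b : E) : mu K (a + b) = mu K a + mu K b := by ext x; simp [add_mul]

omit [Fintype K] in
lemma mu_sub (a b : E) : mu K (a - b) = mu K a - mu K b := by ext x; simp [sub_mul]

omit [Fintype K] in
lemma mu_neg (a : E) : mu K (-a) = -mu K a := by ext x; simp

lemma fr_pow_mu (i : ℕ) (a : E) :
    fr K E ^ i * mu K a = mu K (a ^ (Fintype.card K ^ i)) * fr K E ^ i := by
  ext x; simp [fr_pow_apply, mul_pow]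

lemma fr_mu (a : E) : fr K E * mu K a = mu K (a ^ Fintype.card K) * fr K E := by
  simpa using fr_pow_mu (K := K) 1 a

variable (K E) in
/-- linearised polynomials of degree `< n` -/
def R (n : ℕ) : AddSubgroup (Module.End K E) where
  carrier := {f | ∃ a : ℕ → E, f = ∑ i ∈ range n, mu K (a i) * fr K E ^ i}
  zero_mem' := ⟨0, by simp⟩
  add_mem' := by
    rintro _ _ ⟨a, rfl⟩ ⟨b, rfl⟩
    exact ⟨a + b, by simp [mu_add, add_mul, sum_add_distrib]⟩
  neg_mem' := by
    rintro _ ⟨a, rfl⟩
    refine ⟨-a, ?_⟩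
    rw [← sum_neg_distrib]
    exact sum_congr rfl fun i _ => by ext x; simp

lemma mem_R {n : ℕ} {f : Module.End K E} :
    f ∈ R K E n ↔ ∃ a : ℕ → E, f = ∑ i ∈ range n, mu K (a i) * fr K E ^ i := Iff.rfl

lemma gen_mem {n i : ℕ} (h : i < n) (a : E) : mu K a * fr K E ^ i ∈ R K E n := by
  refine ⟨fun j => if j = i then a else 0, ?_⟩
  rw [sum_eq_single i]
  · simp
  · intro j _ hj; simp [hj]
  · intro hi; exact absurd (mem_range.2 h) hi

lemma R_mono {m n : ℕ} (h : m ≤ n) {f : Module.End K E} (hf : f ∈ R K E m) : f ∈ R K E n := by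
  obtain ⟨a, rfl⟩ := hf
  exact sum_mem fun i hi => gen_mem ((mem_range.1 hi).trans_le h) _

lemma mu_mem {n : ℕ} (a : E) : mu K a ∈ R K E (n + 1) := by
  simpa using gen_mem (K := K) (Nat.succ_pos n) a

lemma R_mul {m n l : ℕ} {f g : Module.End K E} (hf : f ∈ R K E m) (hg : g ∈ R K E n)
    (h : m + n ≤ l + 1) : f * g ∈ R K E l := by
  obtain ⟨a, rfl⟩ := hf
  obtain ⟨b, rfl⟩ := hg
  rw [sum_mul_sum]
  refine sum_mem fun i hi => sum_mem fun j hj => ?_
  have e : mu K (a i) * fr K E ^ i * (mu K (b j) * fr K E ^ j)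
      = mu K (a i * b j ^ (Fintype.card K ^ i)) * fr K E ^ (i + j) := by
    rw [mul_assoc, ← mul_assoc (fr K E ^ i), fr_pow_mu, ← mu_mul, pow_add]
    simp only [mul_assoc]
  rw [e]
  have := mem_range.1 hi
  have := mem_range.1 hj
  exact gen_mem (by omega) _

/-- `f` has degree at most `j` with coefficient `a` in degree `j` -/
def Top (j : ℕ) (a : E) (f : Module.End K E) : Prop := f - mu K a * fr K E ^ j ∈ R K E j

lemma Top.mem {j : ℕ} {a : E} {f : Module.End K E} (h : Top j a f) : f ∈ R K E (j + 1) := by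
  have := add_mem (R_mono (Nat.le_succ j) h) (gen_mem (K := K) (Nat.lt_succ_self j) a)
  simpa using this

lemma Top.add_mem {j : ℕ} {a : E} {f g : Module.End K E} (h : Top j a f) (hg : g ∈ R K E j) :
    Top j a (f + g) := by
  have := AddSubgroup.add_mem _ h hg
  unfold Top
  convert this using 1; abel

lemma Top.sub_mem {j : ℕ} {a : E} {f g : Module.End K E} (h : Top j a f) (hg : g ∈ R K E j) :
    Top j a (f - g) := by
  simpa [sub_eq_add_neg] using h.add_mem (neg_mem hg)

lemma Top.sub {j : ℕ} {a b : E} {f g : Module.End K E} (h : Top j a f) (hg : Top j b g) :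
    Top j (a - b) (f - g) := by
  have := AddSubgroup.sub_mem _ h hg
  unfold Top
  convert this using 1
  rw [mu_sub, sub_mul]; abel

lemma Top.zero_mem {j : ℕ} {f : Module.End K E} (h : Top j 0 f) : f ∈ R K E j := by
  simpa [Top] using h

lemma top_gen (j : ℕ) (a : E) : Top j a (mu K a * fr K E ^ j) := by simp [Top]

lemma top_mu (a : E) : Top 0 a (mu K a) := by simpa using top_gen (K := K) 0 a

lemma top_fr : Top 1 (1 : E) (fr K E) := by simpa using top_gen (K := K) 1 (1 : E)

lemma Top.mul {i j : ℕ} {a b : E} {f g : Module.End K E} (hf : Top i a f) (hg : Top j b g) :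
    Top (i + j) (a * b ^ (Fintype.card K ^ i)) (f * g) := by
  have h1 : (f - mu K a * fr K E ^ i) * g ∈ R K E (i + j) := R_mul hf hg.mem (by omega)
  have h2 : (mu K a * fr K E ^ i) * (g - mu K b * fr K E ^ j) ∈ R K E (i + j) :=
    R_mul (gen_mem (Nat.lt_succ_self i) a) hg (by omega)
  have e : mu K (a * b ^ (Fintype.card K ^ i)) * fr K E ^ (i + j)
      = mu K a * fr K E ^ i * (mu K b * fr K E ^ j) := by
    rw [mul_assoc, ← mul_assoc (fr K E ^ i), fr_pow_mu, ← mu_mul, pow_add]
    simp only [mul_assoc]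
  unfold Top
  convert AddSubgroup.add_mem _ h1 h2 using 1
  rw [e, sub_mul, mul_sub]; abel

lemma exists_top_succ {n : ℕ} {f : Module.End K E} (h : f ∈ R K E (n + 1)) : ∃ a, Top n a f := by
  obtain ⟨a, rfl⟩ := h
  exact ⟨a n, a, by rw [sum_range_succ]; abel⟩

lemma exists_top {n : ℕ} {f : Module.End K E} (h : f ∈ R K E n) (h0 : f ≠ 0) :
    ∃ j < n, ∃ a ≠ 0, Top j a f := by
  induction n with
  | zero => obtain ⟨a, rfl⟩ := h; simp at h0
  | succ n ih =>
    obtain ⟨a, ha⟩ := exists_top_succ h
    by_cases h1 : a = 0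
    · subst h1
      obtain ⟨j, hj, hb⟩ := ih ha.zero_mem
      exact ⟨j, by omega, hb⟩
    · exact ⟨n, by omega, a, h1, ha⟩

variable [Finite E]

open Polynomial in
lemma Top.ker_le {j : ℕ} {a : E} {f : Module.End K E} (h : Top j a f) (ha : a ≠ 0) :
    finrank K (LinearMap.ker f) ≤ j := by
  classical
  obtain ⟨b, hb⟩ := h
  have hq : 1 < Fintype.card K := Fintype.one_lt_card
  set q := Fintype.card K with hqd
  let P : E[X] := monomial (q ^ j) a + ∑ i ∈ range j, monomial (q ^ i) (b i)
  have hc : P.coeff (q ^ j) = a := by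
    simp only [P, coeff_add, finsetSum_coeff, coeff_monomial, if_true]
    rw [sum_eq_zero, add_zero]
    intro i hi
    rw [if_neg (Nat.pow_lt_pow_right hq (mem_range.1 hi)).ne]
  have hP : P ≠ 0 := by rintro h0; rw [h0, coeff_zero] at hc; exact ha hc.symm
  have hd : P.natDegree ≤ q ^ j := by
    refine (natDegree_add_le _ _).trans (max_le (natDegree_monomial_le _) ?_)
    refine natDegree_sum_le_of_forall_le _ _ fun i hi => (natDegree_monomial_le _).trans ?_
    exact Nat.pow_le_pow_right hq.le (mem_range.1 hi).le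
  have := Fintype.ofFinite E
  have hr := card_le_degree_of_subset_roots (p := P)
    (Z := univ.filter fun x : E => x ∈ LinearMap.ker f) fun x hx => by
      have hx' : f x = 0 := by simpa using hx
      have e := LinearMap.congr_fun hb x
      simp only [LinearMap.sub_apply, Module.End.mul_apply, mu_apply, fr_pow_apply, hx',
        LinearMap.sum_apply] at e
      rw [mem_roots hP, IsRoot]
      simp only [P, eval_add, eval_finsetSum, eval_monomial]
      rw [← e]; ring
  have hcard : Fintype.card (LinearMap.ker f) = q ^ finrank K (LinearMap.ker f) :=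
    Module.card_eq_pow_finrank
  rw [Fintype.card_subtype] at hcard
  have : q ^ finrank K (LinearMap.ker f) ≤ q ^ j := by
    rw [← hcard]; exact hr.trans hd
  exact (Nat.pow_le_pow_iff_right hq).1 this

lemma Top.eq_zero {j : ℕ} {a : E} {f : Module.End K E} (h : Top j a f) (hf : f ∈ R K E j)
    (hj : j < finrank K E) : a = 0 := by
  by_contra ha
  have h1 := (h.sub_mem hf).ker_le ha
  rw [sub_self, LinearMap.ker_zero, finrank_top] at h1
  omega

lemma Top.unique {j : ℕ} {a b : E} {f : Module.End K E} (h : Top j a f) (h' : Top j b f)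
    (hj : j < finrank K E) : a = b :=
  sub_eq_zero.1 ((h.sub h').eq_zero (by simp) hj)

lemma ker_le_of_mem {n : ℕ} {f : Module.End K E} (h : f ∈ R K E (n + 1)) (h0 : f ≠ 0) :
    finrank K (LinearMap.ker f) ≤ n := by
  obtain ⟨j, hj, a, ha, ht⟩ := exists_top h h0
  have := ht.ker_le ha
  omega

/-- a product with a factor of degree one has degree at least one -/
lemma eq_zero_of_mul_mem {n : ℕ} {D P : Module.End K E} {a : E} (hD : D ∈ R K E n)
    (hP : Top 1 a P) (ha : a ≠ 0) (hn : n < finrank K E) (h : D * P ∈ R K E 1) : D = 0 := by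
  by_contra h0
  obtain ⟨j, hj, e, he, ht⟩ := exists_top hD h0
  have := (ht.mul hP).eq_zero (R_mono (by omega) h) (by omega)
  simp [he, ha] at this

lemma coeff_eq_zero {n : ℕ} (hn : n ≤ finrank K E) (a : ℕ → E)
    (h : ∑ i ∈ range n, mu K (a i) * fr K E ^ i = 0) : ∀ i < n, a i = 0 := by
  induction n with
  | zero => intro i hi; omega
  | succ n ih =>
    have ht : Top n (a n) (∑ i ∈ range (n + 1), mu K (a i) * fr K E ^ i) :=
      ⟨a, by rw [sum_range_succ]; abel⟩
    have h0 : a n = 0 := ht.eq_zero (by rw [h]; exact zero_mem _) (by omega)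
    rw [sum_range_succ, h0, mu_zero, zero_mul, add_zero] at h
    intro i hi
    rcases Nat.lt_succ_iff_lt_or_eq.1 hi with hi | rfl
    · exact ih (by omega) h i hi
    · exact h0

end Pool.Agent.P.MP_3b9ee7_co.PP
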